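import Mathlib

namespace Pool.Agent.Results.MP_025f5d_nt.Q1

open Finset

/-- `u ≡ v (mod p^m)` for rationals: `(u - v) / p^m` has denominator prime to `p` -/
def cong (p m : ℕ) (u v : ℚ) : Prop := ¬ p ∣ ((u - v) / (p : ℚ) ^ m).den

instance (p m : ℕ) (u v : ℚ) : Decidable (cong p m u v) := by unfold cong; infer_instance

/-- the Pell numbers -/
def pell : ℕ → ℕ
  | 0 => 0
  | 1 => 1
  | n + 2 => 2 * pell (n + 1) + pell n

theorem result : ¬ ∀ p : ℕ, p.Prime → 3 < p → (p % 8 = 1 ∨ p % 8 = 3) → ∀ x y : ℤ,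
    (p : ℤ) = x ^ 2 + 2 * y ^ 2 → (x % 8 = 1 ∨ x % 8 = 3) →
    cong p 2 (∑ k ∈ range p, (k * pell k : ℚ) / (-8) ^ k * ((2 * k).choose k : ℚ) ^ 2)
      ((-1) ^ ((x + 1) / 2) / 2 * (x + p / (2 * x))) := by
  intro h
  have h1 := h 11 (by norm_num) (by norm_num) (by norm_num) 3 1 (by norm_num) (by norm_num)
  revert h1
  simp only [Nat.choose_eq_descFactorial_div_factorial]
  decide +kernel

end Pool.Agent.Results.MP_025f5d_nt.Q1
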